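import Pool.Agent.Helper80.CB.Stmts

/-!
# Surjectivity of the exponential map of a closed group of unitary matrices

Discrete geodesics: a path `1 = p 0, p 1, …, p m = g` in the group of minimal energy
`∑ |p (i+1) - p i|²` consists of powers of one single element close to the identity.
-/

open Matrix MvPolynomial Filter Topology

open scoped Matrix.Norms.Operator

namespace Pool.Agent.Helper80.CB

/-- squared Hilbert-Schmidt norm -/
noncomputable def exps_nsq {n : ℕ} (A : Mat n) : ℝ := ∑ i, ∑ j, ‖A i j‖ ^ 2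

theorem exps_nsq_nonneg {n : ℕ} (A : Mat n) : 0 ≤ exps_nsq A :=
  Finset.sum_nonneg fun _ _ => Finset.sum_nonneg fun _ _ => sq_nonneg _

theorem exps_entry {n : ℕ} (A : Mat n) (i j : Fin n) : ‖A i j‖ ^ 2 ≤ exps_nsq A := by
  refine le_trans ?_ (Finset.single_le_sum (f := fun i => ∑ j, ‖A i j‖ ^ 2)
    (fun _ _ => Finset.sum_nonneg fun _ _ => sq_nonneg _) (Finset.mem_univ i))
  exact Finset.single_le_sum (f := fun j => ‖A i j‖ ^ 2) (fun _ _ => sq_nonneg _)
    (Finset.mem_univ j)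

theorem exps_nsq_eq {n : ℕ} (A : Mat n) : exps_nsq A = (Matrix.trace (Aᴴ * A)).re := by
  unfold exps_nsq
  rw [Matrix.trace]
  simp only [Matrix.diag_apply, Matrix.mul_apply, Matrix.conjTranspose_apply]
  rw [Complex.re_sum, Finset.sum_comm]
  refine Finset.sum_congr rfl fun i _ => ?_
  rw [Complex.re_sum]
  refine Finset.sum_congr rfl fun j _ => ?_
  rw [← Complex.normSq_eq_norm_sq, mul_comm]
  show _ = ((A j i) * (starRingEnd ℂ) (A j i)).re
  rw [Complex.mul_conj, Complex.ofReal_re]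

theorem exps_nsq_mul {n : ℕ} (U A : Mat n) (hU : Uᴴ * U = 1) :
    exps_nsq (U * A) = exps_nsq A := by
  rw [exps_nsq_eq, exps_nsq_eq, Matrix.conjTranspose_mul, Matrix.mul_assoc,
    ← Matrix.mul_assoc Uᴴ U A, hU, Matrix.one_mul]

theorem exps_nsq_sub {n : ℕ} (U V : Mat n) (hU : Uᴴ * U = 1) (hV : Vᴴ * V = 1) :
    exps_nsq (U - V) = 2 * n - 2 * (Matrix.trace (Vᴴ * U)).re := by
  rw [exps_nsq_eq]
  have h1 : (U - V)ᴴ * (U - V) = Uᴴ * U - Uᴴ * V - Vᴴ * U + Vᴴ * V := by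
    rw [Matrix.conjTranspose_sub]
    noncomm_ring
  have h2 : Matrix.trace (Uᴴ * V) = star (Matrix.trace (Vᴴ * U)) := by
    rw [← Matrix.trace_conjTranspose, Matrix.conjTranspose_mul, Matrix.conjTranspose_conjTranspose]
  have h3 : (Matrix.trace (Uᴴ * V)).re = (Matrix.trace (Vᴴ * U)).re := by
    rw [h2]
    show ((starRingEnd ℂ) _).re = _
    exact Complex.conj_re _
  rw [h1, hU, hV, Matrix.trace_add, Matrix.trace_sub, Matrix.trace_sub, Complex.add_re,
    Complex.sub_re, Complex.sub_re, h3, Matrix.trace_one, Fintype.card_fin, Complex.natCast_re]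
  ring

/-- first variation -/
theorem exps_var {n : ℕ} (C Z : Mat n)
    (h : ∀ s : ℝ, (Matrix.trace (C * NormedSpace.exp (((s : ℂ) * Complex.I) • Z))).re
      ≤ (Matrix.trace C).re) : (Matrix.trace (C * (Complex.I • Z))).re = 0 := by
  let L : Mat n →ₗ[ℝ] ℝ :=
    { toFun := fun A => (Matrix.trace (C * A)).re
      map_add' := fun A B => by rw [Matrix.mul_add, Matrix.trace_add, Complex.add_re]
      map_smul' := fun a A => by
        rw [Matrix.mul_smul, Matrix.trace_smul, Complex.real_smul, Complex.re_ofReal_mul]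
        rfl }
  have hd : HasDerivAt (fun s : ℝ => NormedSpace.exp (s • (Complex.I • Z)))
      (NormedSpace.exp ((0 : ℝ) • (Complex.I • Z)) * (Complex.I • Z)) 0 :=
    hasDerivAt_exp_smul_const (Complex.I • Z) (0 : ℝ)
  have hL : HasDerivAt (fun s : ℝ => L.toContinuousLinearMap
      (NormedSpace.exp (s • (Complex.I • Z))))
      (L.toContinuousLinearMap (NormedSpace.exp ((0 : ℝ) • (Complex.I • Z)) * (Complex.I • Z))) 0 :=
    L.toContinuousLinearMap.hasFDerivAt.comp_hasDerivAt 0 hd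
  have hmax : IsLocalMax (fun s : ℝ => L.toContinuousLinearMap
      (NormedSpace.exp (s • (Complex.I • Z)))) 0 := by
    refine Filter.Eventually.of_forall fun s => ?_
    show (Matrix.trace (C * NormedSpace.exp (s • (Complex.I • Z)))).re
      ≤ (Matrix.trace (C * NormedSpace.exp ((0 : ℝ) • (Complex.I • Z)))).re
    have e1 : s • (Complex.I • Z) = ((s : ℂ) * Complex.I) • Z := by
      rw [mul_smul]
      rfl
    rw [e1, zero_smul, NormedSpace.exp_zero, Matrix.mul_one]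
    exact h s
  have h0 := hmax.hasDerivAt_eq_zero hL
  rw [zero_smul, NormedSpace.exp_zero, Matrix.one_mul] at h0
  exact h0

theorem exps_lip (n : ℕ) (c : ℝ) (hc : 0 < c) :
    ∃ r > 0, ∀ A B : Mat n, ‖A‖ < r → ‖B‖ < r →
      ‖NormedSpace.exp A - NormedSpace.exp B - (A - B)‖ ≤ c * ‖A - B‖ := by
  have h : HasStrictFDerivAt (NormedSpace.exp : Mat n → Mat n) (1 : Mat n →L[ℝ] Mat n) 0 :=
    hasStrictFDerivAt_exp_zero
  have h2 := (h.isLittleO.def hc)
  rw [Metric.eventually_nhds_iff] at h2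
  obtain ⟨r, hr, h3⟩ := h2
  refine ⟨r, hr, fun A B hA hB => ?_⟩
  have h4 := h3 (y := (A, B)) (by
    rw [Prod.dist_eq, max_lt_iff]
    exact ⟨by simpa using hA, by simpa using hB⟩)
  exact h4

/-- sum of the absolute values of the entries -/
noncomputable def exps_l1 {n : ℕ} (A : Mat n) : ℝ := ∑ i, ∑ j, ‖A i j‖

theorem exps_norm_le {n : ℕ} (A : Mat n) : ‖A‖ ≤ exps_l1 A := by
  rw [Matrix.linfty_opNorm_def]
  have h : (Finset.univ : Finset (Fin n)).sup (fun i => ∑ j, ‖A i j‖₊)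
      ≤ ∑ i, ∑ j, ‖A i j‖₊ := by
    refine Finset.sup_le fun i hi => ?_
    exact Finset.single_le_sum (f := fun i => ∑ j, ‖A i j‖₊) (fun _ _ => zero_le) hi
  have h2 := NNReal.coe_le_coe.mpr h
  refine h2.trans (le_of_eq ?_)
  unfold exps_l1
  push_cast
  rfl

theorem exps_entry_le {n : ℕ} (A : Mat n) (i j : Fin n) : ‖A i j‖ ≤ ‖A‖ := by
  rw [Matrix.linfty_opNorm_def]
  have h1 : ‖A i j‖₊ ≤ ∑ j, ‖A i j‖₊ :=
    Finset.single_le_sum (f := fun j => ‖A i j‖₊) (fun _ _ => zero_le) (Finset.mem_univ j)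
  have h2 : ∑ j, ‖A i j‖₊ ≤ (Finset.univ : Finset (Fin n)).sup (fun i => ∑ j, ‖A i j‖₊) :=
    Finset.le_sup (f := fun i => ∑ j, ‖A i j‖₊) (Finset.mem_univ i)
  exact NNReal.coe_le_coe.mpr (h1.trans h2)

theorem exps_l1_sq {n : ℕ} (A : Mat n) : exps_l1 A ^ 2 ≤ (n : ℝ) ^ 2 * exps_nsq A := by
  unfold exps_l1 exps_nsq
  have h1 := sq_sum_le_card_mul_sum_sq (s := (Finset.univ : Finset (Fin n)))
    (f := fun i => ∑ j, ‖A i j‖)
  rw [Finset.card_univ, Fintype.card_fin] at h1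
  have h2 : ∀ i, (∑ j, ‖A i j‖) ^ 2 ≤ (n : ℝ) * ∑ j, ‖A i j‖ ^ 2 := by
    intro i
    have := sq_sum_le_card_mul_sum_sq (s := (Finset.univ : Finset (Fin n)))
      (f := fun j => ‖A i j‖)
    rwa [Finset.card_univ, Fintype.card_fin] at this
  calc (∑ i, ∑ j, ‖A i j‖) ^ 2 ≤ (n : ℝ) * ∑ i, (∑ j, ‖A i j‖) ^ 2 := h1
    _ ≤ (n : ℝ) * ∑ i, (n : ℝ) * ∑ j, ‖A i j‖ ^ 2 :=
        mul_le_mul_of_nonneg_left (Finset.sum_le_sum fun i _ => h2 i) (Nat.cast_nonneg n)
    _ = (n : ℝ) ^ 2 * ∑ i, ∑ j, ‖A i j‖ ^ 2 := by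
        rw [← Finset.mul_sum]
        ring

theorem exps_nsq_le {n : ℕ} (A : Mat n) : exps_nsq A ≤ (n : ℝ) ^ 2 * ‖A‖ ^ 2 := by
  unfold exps_nsq
  calc ∑ i, ∑ j, ‖A i j‖ ^ 2 ≤ ∑ _i : Fin n, ∑ _j : Fin n, ‖A‖ ^ 2 := by
        refine Finset.sum_le_sum fun i _ => Finset.sum_le_sum fun j _ => ?_
        exact pow_le_pow_left₀ (norm_nonneg _) (exps_entry_le A i j) 2
    _ = (n : ℝ) ^ 2 * ‖A‖ ^ 2 := by
        simp only [Finset.sum_const, Finset.card_univ, Fintype.card_fin, nsmul_eq_mul]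
        ring

theorem exps_nsq_zero {n : ℕ} (A : Mat n) (h : exps_nsq A = 0) : A = 0 := by
  ext i j
  have h1 := exps_entry A i j
  rw [h] at h1
  have h2 : ‖A i j‖ = 0 := by nlinarith [norm_nonneg (A i j)]
  exact norm_eq_zero.mp h2

theorem exps_tr_le {n : ℕ} (R D : Mat n) :
    (Matrix.trace (R * D)).re ≤ ‖R‖ * exps_l1 D := by
  have h1 : (Matrix.trace (R * D)).re ≤ ‖Matrix.trace (R * D)‖ := Complex.re_le_norm _
  refine h1.trans ?_
  rw [Matrix.trace]
  simp only [Matrix.diag_apply, Matrix.mul_apply]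
  calc ‖∑ i, ∑ j, R i j * D j i‖ ≤ ∑ i, ‖∑ j, R i j * D j i‖ := norm_sum_le _ _
    _ ≤ ∑ i, ∑ j, ‖R‖ * ‖D j i‖ := by
        refine Finset.sum_le_sum fun i _ => (norm_sum_le _ _).trans ?_
        refine Finset.sum_le_sum fun j _ => ?_
        rw [norm_mul]
        exact mul_le_mul_of_nonneg_right (exps_entry_le R i j) (norm_nonneg _)
    _ = ‖R‖ * exps_l1 D := by
        rw [Finset.sum_comm]
        unfold exps_l1
        rw [Finset.mul_sum]
        exact Finset.sum_congr rfl fun i _ => (Finset.mul_sum _ _ _).symm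

/-- local injectivity in the variational form -/
theorem exps_inj (n : ℕ) : ∃ ε > 0, ∀ X Y : Mat n, Xᴴ = X → Yᴴ = Y →
    (∀ i j, ‖X i j‖ < ε) → (∀ i j, ‖Y i j‖ < ε) →
    (Matrix.trace ((NormedSpace.exp (Complex.I • X) - NormedSpace.exp (Complex.I • Y)) *
      (Complex.I • (X - Y)))).re = 0 → X = Y := by
  set c : ℝ := 1 / (2 * ((n : ℝ) ^ 2 + 1)) with hc
  have hc0 : 0 < c := by positivity
  obtain ⟨r, hr, hlip⟩ := exps_lip n c hc0
  have hn1 : (0 : ℝ) < (n : ℝ) ^ 2 + 1 := by positivity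
  refine ⟨r / ((n : ℝ) ^ 2 + 1), by positivity, ?_⟩
  intro X Y hX hY hXs hYs htr
  have hsmall : ∀ A : Mat n, (∀ i j, ‖A i j‖ < r / ((n : ℝ) ^ 2 + 1)) → ‖Complex.I • A‖ < r := by
    intro A hA
    have h1 : ‖Complex.I • A‖ ≤ exps_l1 (Complex.I • A) := exps_norm_le _
    have h2 : exps_l1 (Complex.I • A) ≤ (n : ℝ) ^ 2 * (r / ((n : ℝ) ^ 2 + 1)) := by
      unfold exps_l1
      calc ∑ i, ∑ j, ‖(Complex.I • A) i j‖
          ≤ ∑ _i : Fin n, ∑ _j : Fin n, (r / ((n : ℝ) ^ 2 + 1)) := by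
            refine Finset.sum_le_sum fun i _ => Finset.sum_le_sum fun j _ => ?_
            rw [Matrix.smul_apply, norm_smul, Complex.norm_I, one_mul]
            exact (hA i j).le
        _ = _ := by
            simp only [Finset.sum_const, Finset.card_univ, Fintype.card_fin, nsmul_eq_mul]
            ring
    refine lt_of_le_of_lt (h1.trans h2) ?_
    rw [← mul_div_assoc, div_lt_iff₀ hn1]
    nlinarith
  set D := X - Y with hD
  set R := NormedSpace.exp (Complex.I • X) - NormedSpace.exp (Complex.I • Y)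
    - (Complex.I • X - Complex.I • Y) with hR
  have hRn : ‖R‖ ≤ c * ‖Complex.I • X - Complex.I • Y‖ :=
    hlip _ _ (hsmall X hXs) (hsmall Y hYs)
  have hDD : Dᴴ = D := by rw [hD, Matrix.conjTranspose_sub, hX, hY]
  have e1 : NormedSpace.exp (Complex.I • X) - NormedSpace.exp (Complex.I • Y)
      = R + Complex.I • D := by
    rw [hR, hD, smul_sub]
    abel
  have hID : Complex.I • X - Complex.I • Y = Complex.I • D := by rw [hD, smul_sub]
  rw [e1, Matrix.add_mul, Matrix.trace_add, Complex.add_re] at htr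
  have e2 : (Matrix.trace ((Complex.I • D) * (Complex.I • D))).re = - exps_nsq D := by
    rw [exps_nsq_eq, hDD, Matrix.smul_mul, Matrix.mul_smul, smul_smul, Complex.I_mul_I,
      neg_smul, one_smul, Matrix.trace_neg, Complex.neg_re]
  have hl1 : exps_l1 (Complex.I • D) = exps_l1 D := by
    unfold exps_l1
    refine Finset.sum_congr rfl fun i _ => Finset.sum_congr rfl fun j _ => ?_
    rw [Matrix.smul_apply, norm_smul, Complex.norm_I, one_mul]
  have h3 : (Matrix.trace (R * (Complex.I • D))).re ≤ ‖R‖ * exps_l1 D := by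
    have := exps_tr_le R (Complex.I • D)
    rwa [hl1] at this
  have h4 : ‖Complex.I • D‖ ≤ exps_l1 D := by
    have := exps_norm_le (Complex.I • D)
    rwa [hl1] at this
  have hl0 : 0 ≤ exps_l1 D := le_trans (norm_nonneg _) h4
  have h5 : ‖R‖ * exps_l1 D ≤ c * (exps_l1 D ^ 2) := by
    rw [hID] at hRn
    calc ‖R‖ * exps_l1 D ≤ (c * exps_l1 D) * exps_l1 D :=
          mul_le_mul_of_nonneg_right (hRn.trans (mul_le_mul_of_nonneg_left h4 hc0.le)) hl0
      _ = c * (exps_l1 D ^ 2) := by ring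
  have h6 : c * (exps_l1 D ^ 2) ≤ c * ((n : ℝ) ^ 2 * exps_nsq D) :=
    mul_le_mul_of_nonneg_left (exps_l1_sq D) hc0.le
  have h7 : c * (n : ℝ) ^ 2 ≤ 1 / 2 := by
    rw [hc, div_mul_eq_mul_div, one_mul, div_le_iff₀ (by positivity)]
    linarith
  have h8 : exps_nsq D ≤ 1 / 2 * exps_nsq D := by
    have h9 : exps_nsq D ≤ c * ((n : ℝ) ^ 2 * exps_nsq D) := by linarith
    have h10 : c * ((n : ℝ) ^ 2 * exps_nsq D) = (c * (n : ℝ) ^ 2) * exps_nsq D := by ring
    rw [h10] at h9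
    exact h9.trans (mul_le_mul_of_nonneg_right h7 (exps_nsq_nonneg D))
  have h11 : exps_nsq D = 0 := le_antisymm (by linarith) (exps_nsq_nonneg D)
  exact sub_eq_zero.mp (exps_nsq_zero D h11)

/-- energy of a subdivided exponential -/
theorem exps_small {n : ℕ} (A : Mat n) (η : ℝ) (hη : 0 < η) :
    ∃ M0 : ℕ, ∀ M : ℕ, M0 ≤ M → 0 < M →
      (M : ℝ) * exps_nsq (NormedSpace.exp ((M : ℝ)⁻¹ • A) - 1) ≤ η := by
  obtain ⟨r, hr, hlip⟩ := exps_lip n 1 one_pos
  obtain ⟨M1, hM1⟩ := exists_nat_gt (‖A‖ / r)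
  obtain ⟨M2, hM2⟩ := exists_nat_gt (4 * (n : ℝ) ^ 2 * ‖A‖ ^ 2 / η)
  refine ⟨max M1 M2, fun M hM hM0 => ?_⟩
  have hMr : (0 : ℝ) < M := by exact_mod_cast hM0
  have hM1' : ‖A‖ / r < M := lt_of_lt_of_le hM1 (by exact_mod_cast (le_max_left M1 M2).trans hM)
  have hM2' : 4 * (n : ℝ) ^ 2 * ‖A‖ ^ 2 / η < M :=
    lt_of_lt_of_le hM2 (by exact_mod_cast (le_max_right M1 M2).trans hM)
  have hnorm : ‖(M : ℝ)⁻¹ • A‖ = ‖A‖ / M := by
    rw [norm_smul, norm_inv, Real.norm_of_nonneg hMr.le, div_eq_inv_mul]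
  have hsm : ‖(M : ℝ)⁻¹ • A‖ < r := by
    rw [hnorm, div_lt_iff₀ hMr]
    rw [div_lt_iff₀ hr] at hM1'
    linarith
  have h1 := hlip ((M : ℝ)⁻¹ • A) 0 hsm (by rw [norm_zero]; exact hr)
  rw [NormedSpace.exp_zero, sub_zero, one_mul] at h1
  have h2 : ‖NormedSpace.exp ((M : ℝ)⁻¹ • A) - 1‖ ≤ 2 * (‖A‖ / M) := by
    have h3 : NormedSpace.exp ((M : ℝ)⁻¹ • A) - 1
        = (NormedSpace.exp ((M : ℝ)⁻¹ • A) - 1 - (M : ℝ)⁻¹ • A) + (M : ℝ)⁻¹ • A := by abel
    rw [h3]
    refine (norm_add_le _ _).trans ?_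
    rw [← hnorm]
    linarith
  have h4 := exps_nsq_le (NormedSpace.exp ((M : ℝ)⁻¹ • A) - 1)
  have h5 : ‖NormedSpace.exp ((M : ℝ)⁻¹ • A) - 1‖ ^ 2 ≤ (2 * (‖A‖ / M)) ^ 2 :=
    pow_le_pow_left₀ (norm_nonneg _) h2 2
  calc (M : ℝ) * exps_nsq (NormedSpace.exp ((M : ℝ)⁻¹ • A) - 1)
      ≤ (M : ℝ) * ((n : ℝ) ^ 2 * (2 * (‖A‖ / M)) ^ 2) :=
        mul_le_mul_of_nonneg_left (h4.trans (mul_le_mul_of_nonneg_left h5 (by positivity)))
          hMr.le
    _ = (4 * (n : ℝ) ^ 2 * ‖A‖ ^ 2) / M := by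
        field_simp
        ring
    _ ≤ η := by
        rw [div_le_iff₀ hMr]
        rw [div_lt_iff₀ hη] at hM2'
        linarith

theorem exps_unit' {n : ℕ} {g : Mat n} (h : gᴴ * g = 1) : g * gᴴ = 1 := mul_eq_one_comm.mp h

theorem exps_compact {n : ℕ} (G : Set (Mat n)) (hunit : ∀ g ∈ G, gᴴ * g = 1)
    (hclosed : IsClosed G) : IsCompact G := by
  have hp : ProperSpace (Mat n) := FiniteDimensional.proper ℂ (Mat n)
  refine IsCompact.of_isClosed_subset (isCompact_closedBall (0 : Mat n) ((n : ℝ) ^ 3 + 1))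
    hclosed ?_
  intro g hg
  rw [Metric.mem_closedBall, dist_zero_right]
  have h1 := exps_l1_sq g
  have h2 : exps_nsq g = n := by
    rw [exps_nsq_eq, hunit g hg, Matrix.trace_one, Fintype.card_fin, Complex.natCast_re]
  have h3 := exps_norm_le g
  rw [h2] at h1
  have h4 : exps_l1 g ^ 2 ≤ (n : ℝ) ^ 3 := by
    calc exps_l1 g ^ 2 ≤ (n : ℝ) ^ 2 * n := h1
      _ = (n : ℝ) ^ 3 := by ring
  have h5 : (0 : ℝ) ≤ (n : ℝ) ^ 3 := by positivity
  by_contra hcon
  rw [not_le] at hcon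
  nlinarith

theorem exps_nsq_cont {n : ℕ} : Continuous fun A : Mat n => exps_nsq A := by
  unfold exps_nsq
  refine continuous_finsetSum _ fun i _ => continuous_finsetSum _ fun j _ => ?_
  exact ((continuous_id.matrix_elem i j).norm).pow 2

/-- energy of a path -/
noncomputable def expsE {n : ℕ} (m : ℕ) (p : ℕ → Mat n) : ℝ :=
  ∑ i ∈ Finset.range m, exps_nsq (p (i + 1) - p i)

theorem expsE_cont {n : ℕ} (m : ℕ) : Continuous fun p : ℕ → Mat n => expsE m p := by
  unfold expsE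
  refine continuous_finsetSum _ fun i _ => ?_
  exact exps_nsq_cont.comp ((continuous_apply (i + 1)).sub (continuous_apply i))

theorem exps_min {n : ℕ} (G : Set (Mat n)) (hG : IsCompact G) (m : ℕ) (g0 : Mat n)
    (q : ℕ → Mat n) (hq : ∀ i, q i ∈ G) (hq0 : q 0 = 1) (hqm : q m = g0) :
    ∃ p : ℕ → Mat n, (∀ i, p i ∈ G) ∧ p 0 = 1 ∧ p m = g0 ∧ expsE m p ≤ expsE m q ∧
      ∀ p' : ℕ → Mat n, (∀ i, p' i ∈ G) → p' 0 = 1 → p' m = g0 → expsE m p ≤ expsE m p' := by
  have hK : IsCompact ((Set.univ.pi fun _ : ℕ => G) ∩ ({p | p 0 = 1} ∩ {p | p m = g0})) := by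
    refine (isCompact_univ_pi fun _ => hG).inter_right ?_
    exact (isClosed_eq (continuous_apply 0) continuous_const).inter
      (isClosed_eq (continuous_apply m) continuous_const)
  obtain ⟨p, hp, hmin⟩ := hK.exists_isMinOn ⟨q, fun i _ => hq i, hq0, hqm⟩
    (expsE_cont (n := n) m).continuousOn
  refine ⟨p, fun i => hp.1 i (Set.mem_univ i), hp.2.1, hp.2.2,
    hmin ⟨fun i _ => hq i, hq0, hqm⟩, fun p' h1 h2 h3 => hmin ⟨fun i _ => h1 i, h2, h3⟩⟩

theorem exps_real_smul {n : ℕ} (t : ℝ) (X : Mat n) :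
    t • (Complex.I • X) = ((t : ℂ) * Complex.I) • X := by
  rw [mul_smul]
  rfl

theorem exps_star_exp {n : ℕ} {X : Mat n} (hX : Xᴴ = X) :
    (NormedSpace.exp (Complex.I • X))ᴴ = NormedSpace.exp (Complex.I • (-X)) := by
  rw [← Matrix.exp_conjTranspose, Matrix.conjTranspose_smul, hX]
  congr 1
  rw [smul_neg, ← neg_smul]
  congr 1
  exact Complex.conj_I

theorem exps_nsq_comm {n : ℕ} (U V : Mat n) : exps_nsq (U - V) = exps_nsq (V - U) := by
  unfold exps_nsq
  refine Finset.sum_congr rfl fun i _ => Finset.sum_congr rfl fun j _ => ?_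
  rw [Matrix.sub_apply, Matrix.sub_apply, norm_sub_rev]

theorem exps_unit_mul {n : ℕ} {g e : Mat n} (hg : gᴴ * g = 1) (he : eᴴ * e = 1) :
    (g * e)ᴴ * (g * e) = 1 := by
  rw [Matrix.conjTranspose_mul, Matrix.mul_assoc, ← Matrix.mul_assoc gᴴ g e, hg, Matrix.one_mul,
    he]

/-- stationarity of a minimal path -/
theorem exps_stat {n : ℕ} (G : Set (Mat n)) (hmul : ∀ g ∈ G, ∀ g' ∈ G, g * g' ∈ G)
    (hunit : ∀ g ∈ G, gᴴ * g = 1) (m : ℕ) (g0 : Mat n) (p : ℕ → Mat n) (hp : ∀ i, p i ∈ G)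
    (hp0 : p 0 = 1) (hpm : p m = g0)
    (hmin : ∀ p' : ℕ → Mat n, (∀ i, p' i ∈ G) → p' 0 = 1 → p' m = g0 → expsE m p ≤ expsE m p')
    (k : ℕ) (hk : k + 1 < m) (Z : Mat n)
    (hZ : ∀ t : ℝ, NormedSpace.exp (((t : ℂ) * Complex.I) • Z) ∈ G) :
    (Matrix.trace ((p k + p (k + 2))ᴴ * p (k + 1) * (Complex.I • Z))).re = 0 := by
  refine exps_var _ _ fun s => ?_
  set e := NormedSpace.exp (((s : ℂ) * Complex.I) • Z) with he
  have heG : e ∈ G := hZ s
  set p' : ℕ → Mat n := Function.update p (k + 1) (p (k + 1) * e) with hp'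
  have hp'1 : p' (k + 1) = p (k + 1) * e := Function.update_self _ _ _
  have hp'ne : ∀ i, i ≠ k + 1 → p' i = p i := fun i hi => Function.update_of_ne hi _ _
  have hle := hmin p' (fun i => by
    by_cases hi : i = k + 1
    · rw [hi, hp'1]
      exact hmul _ (hp _) _ heG
    · rw [hp'ne i hi]
      exact hp i) (by rw [hp'ne 0 (by omega), hp0]) (by rw [hp'ne m (by omega), hpm])
  have hdiff : expsE m p' - expsE m p
      = (exps_nsq (p' (k + 1) - p' k) - exps_nsq (p (k + 1) - p k))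
        + (exps_nsq (p' (k + 1 + 1) - p' (k + 1)) - exps_nsq (p (k + 1 + 1) - p (k + 1))) := by
    unfold expsE
    rw [← Finset.sum_sub_distrib]
    rw [← Finset.sum_subset (s₁ := {k, k + 1}) (s₂ := Finset.range m)]
    · rw [Finset.sum_pair (by omega)]
    · intro i hi
      rw [Finset.mem_insert, Finset.mem_singleton] at hi
      rw [Finset.mem_range]
      omega
    · intro i _ hi
      rw [Finset.mem_insert, Finset.mem_singleton, not_or] at hi
      rw [hp'ne (i + 1) (by omega), hp'ne i (by omega), sub_self]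
  have hPe := exps_unit_mul (hunit _ (hp (k + 1))) (hunit _ heG)
  have h1 : exps_nsq (p' (k + 1) - p' k)
      = 2 * n - 2 * (Matrix.trace ((p k)ᴴ * (p (k + 1) * e))).re := by
    rw [hp'1, hp'ne k (by omega)]
    exact exps_nsq_sub _ _ hPe (hunit _ (hp k))
  have h2 : exps_nsq (p (k + 1) - p k)
      = 2 * n - 2 * (Matrix.trace ((p k)ᴴ * p (k + 1))).re :=
    exps_nsq_sub _ _ (hunit _ (hp _)) (hunit _ (hp k))
  have h3 : exps_nsq (p' (k + 1 + 1) - p' (k + 1))
      = 2 * n - 2 * (Matrix.trace ((p (k + 2))ᴴ * (p (k + 1) * e))).re := by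
    rw [exps_nsq_comm, hp'1, hp'ne (k + 1 + 1) (by omega)]
    exact exps_nsq_sub _ _ hPe (hunit _ (hp (k + 2)))
  have h4 : exps_nsq (p (k + 1 + 1) - p (k + 1))
      = 2 * n - 2 * (Matrix.trace ((p (k + 2))ᴴ * p (k + 1))).re := by
    rw [exps_nsq_comm]
    exact exps_nsq_sub _ _ (hunit _ (hp _)) (hunit _ (hp (k + 2)))
  rw [h1, h2, h3, h4] at hdiff
  have h5 : (Matrix.trace ((p k + p (k + 2))ᴴ * p (k + 1) * e)).re
      = (Matrix.trace ((p k)ᴴ * (p (k + 1) * e))).re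
        + (Matrix.trace ((p (k + 2))ᴴ * (p (k + 1) * e))).re := by
    rw [← Complex.add_re, ← Matrix.trace_add, Matrix.conjTranspose_add, Matrix.mul_assoc,
      Matrix.add_mul]
  have h6 : (Matrix.trace ((p k + p (k + 2))ᴴ * p (k + 1))).re
      = (Matrix.trace ((p k)ᴴ * p (k + 1))).re
        + (Matrix.trace ((p (k + 2))ᴴ * p (k + 1))).re := by
    rw [← Complex.add_re, ← Matrix.trace_add, Matrix.conjTranspose_add, Matrix.add_mul]
  rw [h5, h6]
  linarith

theorem exps_add_exp {n : ℕ} (A : Mat n) (a b : ℝ) :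
    NormedSpace.exp (a • A) * NormedSpace.exp (b • A) = NormedSpace.exp ((a + b) • A) := by
  rw [add_smul, Matrix.exp_add_of_commute]
  exact ((Commute.refl A).smul_left a).smul_right b

/-- the explicit path -/
theorem exps_path {n : ℕ} (A B : Mat n) (G : Set (Mat n))
    (hmul : ∀ g ∈ G, ∀ g' ∈ G, g * g' ∈ G) (hunit : ∀ g ∈ G, gᴴ * g = 1)
    (hA : ∀ t : ℝ, NormedSpace.exp (t • A) ∈ G) (hB : ∀ t : ℝ, NormedSpace.exp (t • B) ∈ G)
    (η : ℝ) (hη : 0 < η) :
    ∃ (m : ℕ) (q : ℕ → Mat n), 0 < m ∧ (∀ i, q i ∈ G) ∧ q 0 = 1 ∧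
      q m = NormedSpace.exp A * NormedSpace.exp B ∧ expsE m q ≤ η := by
  obtain ⟨M1, h1⟩ := exps_small A (η / 2) (by positivity)
  obtain ⟨M2, h2⟩ := exps_small B (η / 2) (by positivity)
  set M : ℕ := max (max M1 M2) 1 with hM
  have hM0 : 0 < M := lt_of_lt_of_le Nat.one_pos (le_max_right _ _)
  have hMr : (M : ℝ) ≠ 0 := by exact_mod_cast hM0.ne'
  have e1 := h1 M ((le_max_left M1 M2).trans (le_max_left _ _)) hM0
  have e2 := h2 M ((le_max_right M1 M2).trans (le_max_left _ _)) hM0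
  have hexpA : NormedSpace.exp A ∈ G := by
    have := hA 1
    rwa [one_smul] at this
  set q : ℕ → Mat n := fun i => if i ≤ M then NormedSpace.exp (((i : ℝ) * (M : ℝ)⁻¹) • A)
    else NormedSpace.exp A * NormedSpace.exp ((((i : ℝ) - M) * (M : ℝ)⁻¹) • B) with hq
  have hqle : ∀ i, i ≤ M → q i = NormedSpace.exp (((i : ℝ) * (M : ℝ)⁻¹) • A) :=
    fun i hi => if_pos hi
  have hqge : ∀ i, q (M + i)
      = NormedSpace.exp A * NormedSpace.exp (((i : ℝ) * (M : ℝ)⁻¹) • B) := by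
    intro i
    rcases Nat.eq_zero_or_pos i with hi | hi
    · rw [hi, Nat.add_zero, hqle M le_rfl, mul_inv_cancel₀ hMr, one_smul, Nat.cast_zero,
        zero_mul, zero_smul, NormedSpace.exp_zero, mul_one]
    · have : q (M + i)
          = NormedSpace.exp A * NormedSpace.exp (((((M + i : ℕ) : ℝ) - M) * (M : ℝ)⁻¹) • B) :=
        if_neg (by omega)
      rw [this]
      congr 3
      push_cast
      ring
  refine ⟨M + M, q, by omega, fun i => ?_, ?_, ?_, ?_⟩
  · rcases le_total i M with hi | hi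
    · rw [hqle i hi]
      exact hA _
    · obtain ⟨j, rfl⟩ := Nat.exists_eq_add_of_le hi
      rw [hqge j]
      exact hmul _ hexpA _ (hB _)
  · rw [hqle 0 (Nat.zero_le _), Nat.cast_zero, zero_mul, zero_smul, NormedSpace.exp_zero]
  · rw [hqge M, mul_inv_cancel₀ hMr, one_smul]
  · unfold expsE
    rw [Finset.sum_range_add]
    have s1 : ∑ i ∈ Finset.range M, exps_nsq (q (i + 1) - q i)
        = (M : ℝ) * exps_nsq (NormedSpace.exp ((M : ℝ)⁻¹ • A) - 1) := by
      have : ∀ i ∈ Finset.range M, exps_nsq (q (i + 1) - q i)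
          = exps_nsq (NormedSpace.exp ((M : ℝ)⁻¹ • A) - 1) := by
        intro i hi
        rw [Finset.mem_range] at hi
        have e3 : q (i + 1) - q i
            = NormedSpace.exp (((i : ℝ) * (M : ℝ)⁻¹) • A)
              * (NormedSpace.exp ((M : ℝ)⁻¹ • A) - 1) := by
          rw [hqle (i + 1) (by omega), hqle i (by omega), mul_sub, mul_one, exps_add_exp]
          congr 3
          push_cast
          ring
        rw [e3, exps_nsq_mul _ _ (hunit _ (hA _))]
      rw [Finset.sum_congr rfl this, Finset.sum_const, Finset.card_range, nsmul_eq_mul]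
    have s2 : ∑ i ∈ Finset.range M, exps_nsq (q (M + i + 1) - q (M + i))
        = (M : ℝ) * exps_nsq (NormedSpace.exp ((M : ℝ)⁻¹ • B) - 1) := by
      have : ∀ i ∈ Finset.range M, exps_nsq (q (M + i + 1) - q (M + i))
          = exps_nsq (NormedSpace.exp ((M : ℝ)⁻¹ • B) - 1) := by
        intro i hi
        have e3 : q (M + i + 1) - q (M + i)
            = (NormedSpace.exp A * NormedSpace.exp (((i : ℝ) * (M : ℝ)⁻¹) • B))
              * (NormedSpace.exp ((M : ℝ)⁻¹ • B) - 1) := by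
          rw [Nat.add_assoc, hqge (i + 1), hqge i, mul_sub, mul_one, mul_assoc, exps_add_exp]
          congr 4
          push_cast
          ring
        rw [e3, exps_nsq_mul _ _ (exps_unit_mul (hunit _ hexpA) (hunit _ (hB _)))]
      rw [Finset.sum_congr rfl this, Finset.sum_const, Finset.card_range, nsmul_eq_mul]
    rw [s1, s2]
    linarith

/-- products of exponentials are exponentials -/
theorem exps_prod {n : ℕ} (G : Set (Mat n)) (h : Submodule ℝ (Mat n))
    (hmul : ∀ g ∈ G, ∀ g' ∈ G, g * g' ∈ G) (hstar : ∀ g ∈ G, gᴴ ∈ G)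
    (hunit : ∀ g ∈ G, gᴴ * g = 1) (hclosed : IsClosed G)
    (hh : ∀ X : Mat n, X ∈ h ↔ Xᴴ = X ∧
      ∀ t : ℝ, NormedSpace.exp (((t : ℂ) * Complex.I) • X) ∈ G)
    (hcs : ∀ ε : ℝ, 0 < ε → ∃ δ : ℝ, 0 < δ ∧ ∀ g ∈ G, (∀ i j, ‖(g - 1) i j‖ < δ) →
      ∃ X ∈ h, (∀ i j, ‖X i j‖ < ε) ∧ NormedSpace.exp (Complex.I • X) = g)
    (X Y : Mat n) (hX : X ∈ h) (hY : Y ∈ h) :
    ∃ V ∈ h, NormedSpace.exp (Complex.I • V)
      = NormedSpace.exp (Complex.I • X) * NormedSpace.exp (Complex.I • Y) := by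
  obtain ⟨ε, hε, hinj⟩ := exps_inj n
  obtain ⟨δ, hδ, hδ2⟩ := hcs ε hε
  obtain ⟨m, q, hm, hq, hq0, hqm, hqE⟩ := exps_path (Complex.I • X) (Complex.I • Y) G hmul hunit
    (fun t => by rw [exps_real_smul]; exact ((hh X).mp hX).2 t)
    (fun t => by rw [exps_real_smul]; exact ((hh Y).mp hY).2 t) (δ ^ 2 / 2) (by positivity)
  obtain ⟨p, hp, hp0, hpm, hpE, hmin⟩ := exps_min G (exps_compact G hunit hclosed) m _ q hq hq0 hqm
  -- steps
  have hstep : ∀ i, i < m → ∃ Z ∈ h, (∀ a b, ‖Z a b‖ < ε) ∧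
      NormedSpace.exp (Complex.I • Z) = (p i)ᴴ * p (i + 1) := by
    intro i hi
    refine hδ2 _ (hmul _ (hstar _ (hp i)) _ (hp (i + 1))) fun a b => ?_
    have e1 : (p i)ᴴ * p (i + 1) - 1 = (p i)ᴴ * (p (i + 1) - p i) := by
      rw [Matrix.mul_sub, hunit _ (hp i)]
    have e2 : exps_nsq ((p i)ᴴ * p (i + 1) - 1) = exps_nsq (p (i + 1) - p i) := by
      rw [e1]
      refine exps_nsq_mul _ _ ?_
      rw [Matrix.conjTranspose_conjTranspose]
      exact exps_unit' (hunit _ (hp i))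
    have e3 : exps_nsq (p (i + 1) - p i) ≤ expsE m p :=
      Finset.single_le_sum (f := fun i => exps_nsq (p (i + 1) - p i))
        (fun _ _ => exps_nsq_nonneg _) (Finset.mem_range.mpr hi)
    have e4 := exps_entry ((p i)ᴴ * p (i + 1) - 1) a b
    have e5 : ‖((p i)ᴴ * p (i + 1) - 1) a b‖ ^ 2 ≤ δ ^ 2 / 2 := by linarith
    by_contra hcon
    rw [not_lt] at hcon
    have e6 : δ ^ 2 ≤ ‖((p i)ᴴ * p (i + 1) - 1) a b‖ ^ 2 := pow_le_pow_left₀ hδ.le hcon 2
    have : 0 < δ ^ 2 := by positivity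
    linarith
  choose! Z hZh hZs hZe using hstep
  have hherm : ∀ i, i < m → (Z i)ᴴ = Z i := fun i hi => ((hh _).mp (hZh i hi)).1
  have hconst : ∀ i, i + 1 < m → Z i = Z (i + 1) := by
    intro i hi
    have hi0 : i < m := by omega
    have hdiff : Z i - Z (i + 1) ∈ h := h.sub_mem (hZh i hi0) (hZh (i + 1) hi)
    have hstat := exps_stat G hmul hunit m _ p hp hp0 hpm hmin i hi (Z i - Z (i + 1))
      ((hh _).mp hdiff).2
    refine hinj _ _ (hherm i hi0) (hherm _ hi) (hZs i hi0) (hZs _ hi) ?_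
    rw [hZe i hi0, hZe (i + 1) hi]
    set D := Z i - Z (i + 1) with hD
    have hDD : Dᴴ = D := ((hh _).mp hdiff).1
    have e1 : (p i + p (i + 2))ᴴ * p (i + 1) * (Complex.I • D)
        = (p i)ᴴ * p (i + 1) * (Complex.I • D) + (p (i + 2))ᴴ * p (i + 1) * (Complex.I • D) := by
      rw [Matrix.conjTranspose_add, Matrix.add_mul, Matrix.add_mul]
    have e2 : (Matrix.trace ((p (i + 2))ᴴ * p (i + 1) * (Complex.I • D))).re
        = - (Matrix.trace ((p (i + 1))ᴴ * p (i + 2) * (Complex.I • D))).re := by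
      have e3 : ((p (i + 2))ᴴ * p (i + 1) * (Complex.I • D))ᴴ
          = -((Complex.I • D) * ((p (i + 1))ᴴ * p (i + 2))) := by
        rw [Matrix.conjTranspose_mul, Matrix.conjTranspose_mul, Matrix.conjTranspose_conjTranspose,
          Matrix.conjTranspose_smul, hDD, ← Matrix.neg_mul, ← neg_smul]
        congr 2
        exact Complex.conj_I
      have e4 : (Matrix.trace ((p (i + 2))ᴴ * p (i + 1) * (Complex.I • D))).re
          = (Matrix.trace ((p (i + 2))ᴴ * p (i + 1) * (Complex.I • D))ᴴ).re := by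
        rw [Matrix.trace_conjTranspose]
        exact (Complex.conj_re _).symm
      rw [e4, e3, Matrix.trace_neg, Complex.neg_re, Matrix.trace_mul_comm]
    rw [e1, Matrix.trace_add, Complex.add_re, e2] at hstat
    rw [Matrix.sub_mul, Matrix.trace_sub, Complex.sub_re]
    have e5 : i + 1 + 1 = i + 2 := rfl
    rw [e5]
    linarith
  have hall : ∀ i, i < m → Z i = Z 0 := by
    intro i
    induction i with
    | zero => intro _; rfl
    | succ i ih =>
      intro hi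
      rw [← hconst i hi]
      exact ih (by omega)
  have hpow : ∀ i, i ≤ m → p i = NormedSpace.exp (Complex.I • Z 0) ^ i := by
    intro i
    induction i with
    | zero => intro _; rw [hp0, pow_zero]
    | succ i ih =>
      intro hi
      have h1 : NormedSpace.exp (Complex.I • Z 0) = (p i)ᴴ * p (i + 1) := by
        rw [← hZe i (by omega), hall i (by omega)]
      have h2 : p (i + 1) = p i * ((p i)ᴴ * p (i + 1)) := by
        rw [← Matrix.mul_assoc, exps_unit' (hunit _ (hp i)), Matrix.one_mul]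
      rw [pow_succ, ← ih (by omega), h1, ← h2]
  refine ⟨(m : ℝ) • Z 0, h.smul_mem _ (hZh 0 hm), ?_⟩
  rw [← hpm, hpow m le_rfl, ← Matrix.exp_nsmul]
  congr 1
  rw [smul_comm, Nat.cast_smul_eq_nsmul]

theorem exps_conj_exp {n : ℕ} {g : Mat n} (hg : gᴴ * g = 1) (A : Mat n) :
    NormedSpace.exp (g * A * gᴴ) = g * NormedSpace.exp A * gᴴ := by
  have hinv : g⁻¹ = gᴴ := Matrix.inv_eq_left_inv hg
  have hU : IsUnit g := by
    rw [Matrix.isUnit_iff_isUnit_det]
    exact Matrix.isUnit_det_of_left_inverse hg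
  have := Matrix.exp_conj g A hU
  rwa [hinv] at this

theorem exps_Ad {n : ℕ} (G : Set (Mat n)) (h : Submodule ℝ (Mat n))
    (hmul : ∀ g ∈ G, ∀ g' ∈ G, g * g' ∈ G) (hstar : ∀ g ∈ G, gᴴ ∈ G)
    (hunit : ∀ g ∈ G, gᴴ * g = 1)
    (hh : ∀ X : Mat n, X ∈ h ↔ Xᴴ = X ∧
      ∀ t : ℝ, NormedSpace.exp (((t : ℂ) * Complex.I) • X) ∈ G)
    (g : Mat n) (hg : g ∈ G) (X : Mat n) (hX : X ∈ h) : g * X * gᴴ ∈ h := by
  obtain ⟨h1, h2⟩ := (hh X).mp hX
  refine (hh _).mpr ⟨?_, fun t => ?_⟩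
  · rw [Matrix.conjTranspose_mul, Matrix.conjTranspose_mul, Matrix.conjTranspose_conjTranspose, h1,
      Matrix.mul_assoc]
  · have e : ((t : ℂ) * Complex.I) • (g * X * gᴴ) = g * (((t : ℂ) * Complex.I) • X) * gᴴ := by
      rw [Matrix.mul_smul, Matrix.smul_mul]
    rw [e, exps_conj_exp (hunit g hg)]
    exact hmul _ (hmul _ hg _ (h2 t)) _ (hstar g hg)

theorem exps_brk {n : ℕ} (h : Submodule ℝ (Mat n)) (X Y : Mat n) (hX : Xᴴ = X)
    (hAd : ∀ s : ℝ, NormedSpace.exp (s • (Complex.I • X)) * Y *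
      (NormedSpace.exp (s • (Complex.I • X)))ᴴ ∈ h) :
    Complex.I • (X * Y - Y * X) ∈ h := by
  have hd1 : HasDerivAt (fun s : ℝ => NormedSpace.exp (s • (Complex.I • X)))
      (NormedSpace.exp ((0 : ℝ) • (Complex.I • X)) * (Complex.I • X)) 0 :=
    hasDerivAt_exp_smul_const (Complex.I • X) (0 : ℝ)
  have hd2 : HasDerivAt (fun s : ℝ => NormedSpace.exp (s • (-(Complex.I • X))))
      (NormedSpace.exp ((0 : ℝ) • (-(Complex.I • X))) * (-(Complex.I • X))) 0 :=
    hasDerivAt_exp_smul_const (-(Complex.I • X)) (0 : ℝ)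
  rw [zero_smul, NormedSpace.exp_zero, one_mul] at hd1 hd2
  have hd3 : HasDerivAt (fun s : ℝ => NormedSpace.exp (s • (Complex.I • X)) * Y *
      NormedSpace.exp (s • (-(Complex.I • X))))
      ((Complex.I • X) * Y - Y * (Complex.I • X)) 0 := by
    have h1 := (hd1.mul_const Y).mul hd2
    refine h1.congr_deriv ?_
    rw [zero_smul, NormedSpace.exp_zero, zero_smul, NormedSpace.exp_zero]
    noncomm_ring
  have hconj : ∀ s : ℝ, (NormedSpace.exp (s • (Complex.I • X)))ᴴ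
      = NormedSpace.exp (s • (-(Complex.I • X))) := by
    intro s
    rw [← Matrix.exp_conjTranspose]
    congr 1
    rw [exps_real_smul, Matrix.conjTranspose_smul, hX, smul_neg, exps_real_smul, ← neg_smul]
    congr 1
    show (starRingEnd ℂ) ((s : ℂ) * Complex.I) = _
    rw [map_mul, Complex.conj_ofReal, Complex.conj_I]
    ring
  have hcl : IsClosed (h : Set (Mat n)) := Submodule.closed_of_finiteDimensional h
  have hmem : ∀ s : ℝ, NormedSpace.exp (s • (Complex.I • X)) * Y *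
      NormedSpace.exp (s • (-(Complex.I • X))) ∈ h := by
    intro s
    rw [← hconj]
    exact hAd s
  have hlim := hasDerivAt_iff_tendsto_slope.mp hd3
  have hin : ((Complex.I • X) * Y - Y * (Complex.I • X)) ∈ (h : Set (Mat n)) := by
    refine hcl.mem_of_tendsto hlim (Filter.Eventually.of_forall fun s => ?_)
    exact h.smul_mem _ (h.sub_mem (hmem s) (hmem 0))
  have e : Complex.I • (X * Y - Y * X) = (Complex.I • X) * Y - Y * (Complex.I • X) := by
    rw [smul_sub, Matrix.smul_mul, Matrix.mul_smul]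
  rw [e]
  exact hin

theorem st_EXPS : ST_EXPS := by
  intro n G h hone hmul hstar hunit hclosed hh hcs
  have hherm : ∀ X ∈ h, Xᴴ = X := fun X hX => ((hh X).mp hX).1
  have hG1 : ∀ X ∈ h, NormedSpace.exp (Complex.I • X) ∈ G := by
    intro X hX
    have := ((hh X).mp hX).2 1
    rwa [Complex.ofReal_one, one_mul] at this
  have hSG : ∀ g ∈ {g : Mat n | ∃ X ∈ h, NormedSpace.exp (Complex.I • X) = g}, g ∈ G := by
    rintro g ⟨X, hX, rfl⟩
    exact hG1 X hX
  have hSmul : ∀ g ∈ {g : Mat n | ∃ X ∈ h, NormedSpace.exp (Complex.I • X) = g},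
      ∀ g' ∈ {g : Mat n | ∃ X ∈ h, NormedSpace.exp (Complex.I • X) = g},
      g * g' ∈ {g : Mat n | ∃ X ∈ h, NormedSpace.exp (Complex.I • X) = g} := by
    rintro g ⟨X, hX, rfl⟩ g' ⟨Y, hY, rfl⟩
    exact exps_prod G h hmul hstar hunit hclosed hh hcs X Y hX hY
  refine ⟨{ S := {g | ∃ X ∈ h, NormedSpace.exp (Complex.I • X) = g}
            h := h
            one_mem := ⟨0, h.zero_mem, by rw [smul_zero, NormedSpace.exp_zero]⟩
            mul_mem := hSmul
            star_mem := ?_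
            unit := fun g hg => hunit g (hSG g hg)
            closed := ?_
            herm := hherm
            exp_mem := fun X hX => ⟨X, hX, rfl⟩
            Ad_mem := fun g hg X hX =>
              exps_Ad G h hmul hstar hunit hh g (hSG g hg) X hX
            brk := ?_ }, rfl, rfl⟩
  · rintro g ⟨X, hX, rfl⟩
    exact ⟨-X, h.neg_mem hX, (exps_star_exp (hherm X hX)).symm⟩
  · refine isClosed_of_closure_subset fun g hg => ?_
    have hgG : g ∈ G := hclosed.closure_subset_iff.mpr hSG hg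
    obtain ⟨δ, hδ, hδ2⟩ := hcs 1 one_pos
    have hopen : {g' : Mat n | ∀ i j, ‖(g'ᴴ * g - 1) i j‖ < δ} ∈ 𝓝 g := by
      have hc : ∀ i j, ContinuousAt (fun g' : Mat n => ‖(g'ᴴ * g - 1) i j‖) g := by
        intro i j
        have h1 : Continuous fun g' : Mat n => g'ᴴ * g - 1 :=
          ((continuous_id.matrix_conjTranspose).matrix_mul continuous_const).sub continuous_const
        exact ((h1.matrix_elem i j).norm).continuousAt
      have h2 : ∀ i j, ∀ᶠ g' in 𝓝 g, ‖(g'ᴴ * g - 1) i j‖ < δ := by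
        intro i j
        refine (hc i j).eventually_lt_const ?_
        show ‖(gᴴ * g - 1) i j‖ < δ
        rw [hunit g hgG, sub_self]
        simpa using hδ
      exact Filter.eventually_all.mpr fun i => Filter.eventually_all.mpr fun j => h2 i j
    obtain ⟨g', hg'1, hg'2⟩ := mem_closure_iff_nhds.mp hg _ hopen
    have hg'G := hSG g' hg'2
    obtain ⟨Y, hY, _, hYe⟩ := hδ2 _ (hmul _ (hstar _ hg'G) _ hgG) hg'1
    have e : g = g' * NormedSpace.exp (Complex.I • Y) := by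
      rw [hYe, ← Matrix.mul_assoc, exps_unit' (hunit _ hg'G), Matrix.one_mul]
    rw [e]
    exact hSmul _ hg'2 _ ⟨Y, hY, rfl⟩
  · intro X hX Y hY
    refine exps_brk h X Y (hherm X hX) fun s => ?_
    refine exps_Ad G h hmul hstar hunit hh _ ?_ Y hY
    rw [exps_real_smul]
    exact ((hh X).mp hX).2 s

end Pool.Agent.Helper80.CB
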