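import Pool.Agent.Helper83.CB.Defs4

/-!
# The curvature vanishes in directions on which `π` does not depend
-/

open Filter Topology MeasureTheory

namespace Pool.Agent.Helper83.CB

/-- the derivative in a direction on which the function does not depend -/
theorem freeze_pd {ι : Type} [Fintype ι] [DecidableEq ι] {W : Type*} [NormedAddCommGroup W]
    [NormedSpace ℝ W] (f : (ι → ℝ) → W) (μ : ι)
    (hf : ∀ x s, f (Function.update x μ s) = f x) (x : ι → ℝ) : pd f x μ = 0 := by
  unfold pd
  by_cases hd : DifferentiableAt ℝ f x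
  · have h1 : HasFDerivAt f (fderiv ℝ f x) (x + (0 : ℝ) • (Pi.single μ 1 : ι → ℝ)) := by
      rw [zero_smul, add_zero]
      exact hd.hasFDerivAt
    have h2 : HasDerivAt (fun s : ℝ => x + s • (Pi.single μ 1 : ι → ℝ)) (Pi.single μ 1) 0 := by
      have := ((hasDerivAt_id (0 : ℝ)).smul_const (Pi.single μ 1 : ι → ℝ)).const_add x
      simpa using this
    have h3 : HasDerivAt (fun s : ℝ => f (x + s • (Pi.single μ 1 : ι → ℝ)))
        (fderiv ℝ f x (Pi.single μ 1)) 0 := h1.comp_hasDerivAt 0 h2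
    have h4 : (fun s : ℝ => f (x + s • (Pi.single μ 1 : ι → ℝ))) = fun _ => f x := by
      funext s
      have : x + s • (Pi.single μ 1 : ι → ℝ) = Function.update x μ (x μ + s) := by
        funext j
        by_cases hj : j = μ
        · subst hj
          simp
        · rw [Function.update_of_ne hj]
          simp [Pi.single_eq_of_ne hj]
      rw [this, hf]
    rw [h4] at h3
    exact h3.unique (hasDerivAt_const 0 (f x))
  · rw [fderiv_zero_of_not_differentiableAt hd]
    rfl

theorem freeze_lip {ι : Type} [Fintype ι] [DecidableEq ι] (μ : ι) :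
    LipschitzWith 1 (fun y : ι → ℝ => Function.update y μ 0) := by
  refine LipschitzWith.of_dist_le_mul fun y z => ?_
  rw [NNReal.coe_one, one_mul]
  rw [dist_pi_le_iff dist_nonneg]
  intro j
  by_cases hj : j = μ
  · subst hj
    simp
  · rw [Function.update_of_ne hj, Function.update_of_ne hj]
    exact dist_le_pi_dist y z j

theorem freeze_sz {n : ℕ} (a : ℝ) : a • (0 : M n) = 0 := by
  refine ContinuousLinearMap.ext fun z => ?_
  show a • (0 : E n) = 0
  exact smul_zero a

theorem freeze_zs {n : ℕ} (X : M n) : (0 : ℝ) • X = 0 := by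
  refine ContinuousLinearMap.ext fun z => ?_
  show (0 : ℝ) • (X z) = 0
  exact zero_smul ℝ _

theorem freeze_zero {ι : Type} [Fintype ι] [DecidableEq ι] {n : ℕ}
    (K : (ι → ℝ) → E (n + 1) →L[ℂ] E n) (L : (ι → ℝ) → E n →L[ℂ] E (n + 1))
    (g : (ι → ℝ) → ℝ) (Q0 Q1 : M n →ₗ[ℝ] M n) (x : ι → ℝ) (μ : ι)
    (hK : pd K x μ = 0) (hL : pd L x μ = 0) (hg : pd g x μ = 0) (ν : ι) :
    Fcon K L g Q0 Q1 x μ ν = 0 ∧ Fcon K L g Q0 Q1 x ν μ = 0 := by
  have hA : Acon K L g Q0 Q1 x μ = 0 := by
    unfold Acon Qx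
    rw [hL, ContinuousLinearMap.comp_zero, map_zero, map_zero, freeze_sz, add_zero]
  have hQ : Qx g Q0 Q1 x 0 = 0 := by
    unfold Qx
    rw [map_zero, map_zero, freeze_sz, add_zero]
  constructor
  · unfold Fcon
    rw [hA, hK, hL, hg, ContinuousLinearMap.comp_zero, ContinuousLinearMap.comp_zero,
      ContinuousLinearMap.zero_comp, sub_zero, hQ, map_zero, freeze_sz, freeze_zs, zero_mul,
      mul_zero]
    simp
  · unfold Fcon
    rw [hA, hK, hL, hg, ContinuousLinearMap.comp_zero, ContinuousLinearMap.comp_zero,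
      ContinuousLinearMap.zero_comp, sub_zero, hQ, map_zero, freeze_sz, freeze_zs, zero_mul,
      mul_zero]
    simp

theorem st_FREEZE (hOVER : ST_OVER) : ST_FREEZE := by
  intro n N0 N hS hU k hk Q0 Q1 hQ ι _ _ π g hπ L K hF O μ hO hOb hπμ hgμ
  set K' : (ι → ℝ) → E (n + 1) →L[ℂ] E n := fun y => K (Function.update y μ 0) with hK'
  set L' : (ι → ℝ) → E n →L[ℂ] E (n + 1) := fun y => L (Function.update y μ 0) with hL'
  obtain ⟨CK, hCK⟩ := hF.lipK
  obtain ⟨CL, hCL⟩ := hF.lipL
  have hmem : ∀ x ∈ O, Function.update x μ 0 ∈ Metric.closedBall (0 : ι → ℝ) 3 := by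
    intro x hx
    have h1 := hOb hx
    rw [Metric.mem_ball, dist_zero_right] at h1
    rw [Metric.mem_closedBall, dist_zero_right, pi_norm_le_iff_of_nonneg (by norm_num)]
    intro j
    by_cases hj : j = μ
    · subst hj
      simp
    · rw [Function.update_of_ne hj]
      exact (norm_le_pi_norm x j).trans h1.le
  have hover := hOVER n N0 N hS hU k hk Q0 Q1 hQ ι O π K' K L' L g hO hπ
    ⟨CK * 1, (hCK.comp (freeze_lip μ)).lipschitzOnWith⟩
    ⟨CK, hCK.lipschitzOnWith⟩
    ⟨CL * 1, (hCL.comp (freeze_lip μ)).lipschitzOnWith⟩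
    ⟨CL, hCL.lipschitzOnWith⟩
    (fun x hx => ⟨hF.mem _ (hmem x hx), hF.left _ (hmem x hx), by
      have := hF.right _ (hmem x hx)
      rw [hπμ x hx] at this
      exact this⟩)
    (fun x hx => ⟨hF.mem _ (Metric.ball_subset_closedBall (hOb hx)),
      hF.left _ (Metric.ball_subset_closedBall (hOb hx)),
      hF.right _ (Metric.ball_subset_closedBall (hOb hx))⟩)
  refine hover.2.mono fun x hx hxO ν => ?_
  have hKf : ∀ (y : ι → ℝ) (s : ℝ), K' (Function.update y μ s) = K' y := by
    intro y s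
    show K (Function.update (Function.update y μ s) μ 0) = K (Function.update y μ 0)
    rw [Function.update_idem]
  have hLf : ∀ (y : ι → ℝ) (s : ℝ), L' (Function.update y μ s) = L' y := by
    intro y s
    show L (Function.update (Function.update y μ s) μ 0) = L (Function.update y μ 0)
    rw [Function.update_idem]
  obtain ⟨z1, z2⟩ := freeze_zero K' L' g Q0 Q1 x μ (freeze_pd K' μ hKf x) (freeze_pd L' μ hLf x)
    (freeze_pd g μ hgμ x) ν
  have h1 := hx hxO μ ν
  have h2 := hx hxO ν μ
  rw [z1, mul_zero, zero_mul] at h1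
  rw [z2, mul_zero, zero_mul] at h2
  exact ⟨h1, h2⟩

end Pool.Agent.Helper83.CB
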