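import Pool.Agent.Helper83.CB.Defs2

/-!
# The isometries form a compact group of unitary operators
-/

open Filter Topology

namespace Pool.Agent.Helper83.CB

theorem grp_zero {V : Type*} [AddCommGroup V] [Module ℂ V] {N : V → ℝ} (hN : IsNorm N) :
    N 0 = 0 := by
  have := hN.smul 0 0
  simpa using this

theorem grp_nonneg {V : Type*} [AddCommGroup V] [Module ℂ V] {N : V → ℝ} (hN : IsNorm N)
    (x : V) : 0 ≤ N x := by
  by_cases hx : x = 0
  · rw [hx, grp_zero hN]
  · exact (hN.pos x hx).le

theorem grp_sum_le {V : Type*} [AddCommGroup V] [Module ℂ V] {N : V → ℝ} (hN : IsNorm N)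
    {ι : Type*} (s : Finset ι) (f : ι → V) : N (∑ i ∈ s, f i) ≤ ∑ i ∈ s, N (f i) := by
  classical
  induction s using Finset.induction_on with
  | empty => simp [grp_zero hN]
  | insert a s ha ih =>
    rw [Finset.sum_insert ha, Finset.sum_insert ha]
    exact (hN.add _ _).trans (add_le_add_right ih _)

theorem grp_bound {n : ℕ} {N : E n → ℝ} (hN : IsNorm N) :
    ∃ C : ℝ, 0 ≤ C ∧ ∀ x, N x ≤ C * ‖x‖ := by
  refine ⟨∑ i, N (EuclideanSpace.basisFun (Fin n) ℂ i),
    Finset.sum_nonneg fun i _ => grp_nonneg hN _, fun x => ?_⟩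
  have hx : x = ∑ i, x i • EuclideanSpace.basisFun (Fin n) ℂ i := by
    exact ((EuclideanSpace.basisFun (Fin n) ℂ).sum_repr x).symm
  calc N x = N (∑ i, x i • EuclideanSpace.basisFun (Fin n) ℂ i) := by rw [← hx]
    _ ≤ ∑ i, N (x i • EuclideanSpace.basisFun (Fin n) ℂ i) := grp_sum_le hN _ _
    _ = ∑ i, ‖x i‖ * N (EuclideanSpace.basisFun (Fin n) ℂ i) :=
        Finset.sum_congr rfl fun i _ => hN.smul _ _
    _ ≤ ∑ i, ‖x‖ * N (EuclideanSpace.basisFun (Fin n) ℂ i) :=
        Finset.sum_le_sum fun i _ =>
          mul_le_mul_of_nonneg_right (PiLp.norm_apply_le x i) (grp_nonneg hN _)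
    _ = (∑ i, N (EuclideanSpace.basisFun (Fin n) ℂ i)) * ‖x‖ := by
        rw [← Finset.mul_sum, mul_comm]

theorem grp_sub {V : Type*} [AddCommGroup V] [Module ℂ V] {N : V → ℝ} (hN : IsNorm N)
    (x y : V) : |N x - N y| ≤ N (x - y) := by
  have h1 := hN.add (x - y) y
  rw [sub_add_cancel] at h1
  have h2 := hN.add (y - x) x
  rw [sub_add_cancel] at h2
  have h3 : N (y - x) = N (x - y) := by
    have := hN.smul (-1) (x - y)
    simpa using this
  rw [h3] at h2
  rw [abs_le]
  constructor <;> linarith

theorem grp_cont {n : ℕ} {N : E n → ℝ} (hN : IsNorm N) : Continuous N := by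
  obtain ⟨C, hC0, hC⟩ := grp_bound hN
  have h : LipschitzWith ⟨C, hC0⟩ N := by
    refine LipschitzWith.of_dist_le_mul fun x y => ?_
    rw [Real.dist_eq, dist_eq_norm]
    exact (grp_sub hN x y).trans (hC _)
  exact h.continuous

theorem st_GRP : ST_GRP := by
  intro n N0 hN hU
  have hcont := grp_cont hN
  refine ⟨?_, fun z => rfl, fun g hg h hh z => ?_, fun g hg => ?_⟩
  · have hprop : ProperSpace (E n →L[ℂ] E n) := FiniteDimensional.proper ℂ _
    have hclosed : IsClosed (PP (n := n) (m := n) N0 N0) := by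
      have h : PP (n := n) (m := n) N0 N0
          = ⋂ z : E n, {L : E n →L[ℂ] E n | N0 (L z) = N0 z} := by
        ext L
        simp [PP]
      rw [h]
      refine isClosed_iInter fun z => ?_
      exact isClosed_eq (hcont.comp (ContinuousLinearMap.apply ℂ (E n) z).continuous)
        continuous_const
    refine IsCompact.of_isClosed_subset (isCompact_closedBall (0 : E n →L[ℂ] E n) 1) hclosed ?_
    intro g hg
    rw [Metric.mem_closedBall, dist_zero_right]
    refine ContinuousLinearMap.opNorm_le_bound _ zero_le_one fun z => ?_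
    rw [hU g hg z, one_mul]
  · show N0 (g (h z)) = N0 z
    rw [hg, hh]
  · have h1 : star g * g = 1 :=
      (ContinuousLinearMap.norm_map_iff_adjoint_comp_self g).mp (hU g hg)
    have hinj : Function.Injective g.toLinearMap := by
      intro x y hxy
      have h2 : (star g * g) x = (star g * g) y := congrArg (fun w => (star g : M n) w) hxy
      rwa [h1] at h2
    have hsurj : Function.Surjective g.toLinearMap := LinearMap.injective_iff_surjective.mp hinj
    have hleft : ∀ w, (star g : M n) (g w) = w := fun w => by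
      have : (star g * g) w = w := by rw [h1]; rfl
      exact this
    refine ⟨fun z => ?_, h1, ?_⟩
    · obtain ⟨w, hw⟩ := hsurj z
      have hw' : g w = z := hw
      rw [← hw', hleft, hg]
    · ext1 z
      obtain ⟨w, hw⟩ := hsurj z
      have hw' : g w = z := hw
      show g ((star g : M n) z) = z
      rw [← hw', hleft]

end Pool.Agent.Helper83.CB
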