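import Pool.Agent.Helper83.CB.Defs

/-!
# An inner product invariant under all linear isometries

The inner product is the integral over the dual unit ball of `conj (φ x) * φ y`.
-/

open MeasureTheory Filter Topology

namespace Pool.Agent.Helper83.CB

theorem inv_coords (V : Type) [AddCommGroup V] [Module ℂ V] [FiniteDimensional ℂ V]
    (c : InnerProductSpace.Core ℂ V) :
    ∃ T : V ≃ₗ[ℂ] E (Module.finrank ℂ V), ∀ x, ‖T x‖ ^ 2 = (c.inner x x).re := by
  let _ : NormedAddCommGroup V := @InnerProductSpace.Core.toNormedAddCommGroup ℂ V _ _ _ c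
  let _ : InnerProductSpace ℂ V := InnerProductSpace.ofCore c.toCore
  refine ⟨(stdOrthonormalBasis ℂ V).repr.toLinearEquiv, fun x => ?_⟩
  have h1 : ‖(stdOrthonormalBasis ℂ V).repr.toLinearEquiv x‖ = ‖x‖ :=
    (stdOrthonormalBasis ℂ V).repr.norm_map x
  rw [h1]
  have h2 := inner_self_eq_norm_sq (𝕜 := ℂ) x
  rw [← h2]
  rfl

section

variable (V : Type) [NormedAddCommGroup V] [NormedSpace ℂ V] [FiniteDimensional ℂ V]

/-- the invariant measure on the dual -/
noncomputable def invMu : Measure (V →L[ℂ] ℂ) :=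
  Measure.hausdorffMeasure (Module.finrank ℝ (V →L[ℂ] ℂ) : ℝ)

theorem inv_haar : (invMu V).IsAddHaarMeasure := by
  unfold invMu
  infer_instance

/-- the inner product -/
noncomputable def invB (x y : V) : ℂ :=
  ∫ φ in Metric.closedBall (0 : V →L[ℂ] ℂ) 1, (starRingEnd ℂ) (φ x) * φ y ∂(invMu V)

omit [FiniteDimensional ℂ V] in
theorem inv_cont (x : V) : Continuous fun φ : V →L[ℂ] ℂ => φ x :=
  (ContinuousLinearMap.apply ℂ ℂ x).continuous

theorem inv_integrable (x y : V) :
    IntegrableOn (fun φ : V →L[ℂ] ℂ => (starRingEnd ℂ) (φ x) * φ y)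
      (Metric.closedBall 0 1) (invMu V) := by
  have := inv_haar V
  have : ProperSpace (V →L[ℂ] ℂ) := FiniteDimensional.proper ℝ _
  refine ContinuousOn.integrableOn_compact (isCompact_closedBall _ _) ?_
  exact ((Complex.continuous_conj.comp (inv_cont V x)).mul (inv_cont V y)).continuousOn

omit [FiniteDimensional ℂ V] in
theorem inv_self (x : V) : invB V x x
    = ((∫ φ in Metric.closedBall (0 : V →L[ℂ] ℂ) 1, ‖φ x‖ ^ 2 ∂(invMu V) : ℝ) : ℂ) := by
  unfold invB
  refine Eq.trans (integral_congr_ae (Eventually.of_forall fun φ => ?_))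
    (integral_ofReal (𝕜 := ℂ))
  show (starRingEnd ℂ) (φ x) * φ x = ((‖φ x‖ ^ 2 : ℝ) : ℂ)
  rw [mul_comm, Complex.mul_conj, Complex.normSq_eq_norm_sq]

theorem inv_pos (x : V) (hx : x ≠ 0) :
    0 < ∫ φ in Metric.closedBall (0 : V →L[ℂ] ℂ) 1, ‖φ x‖ ^ 2 ∂(invMu V) := by
  have := inv_haar V
  have : ProperSpace (V →L[ℂ] ℂ) := FiniteDimensional.proper ℝ _
  have hcont : Continuous fun φ : V →L[ℂ] ℂ => ‖φ x‖ ^ 2 := (inv_cont V x).norm.pow 2
  rw [setIntegral_pos_iff_support_of_nonneg_ae (Eventually.of_forall fun φ => sq_nonneg _)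
    (hcont.continuousOn.integrableOn_compact (isCompact_closedBall _ _))]
  have hopen : IsOpen ({φ : V →L[ℂ] ℂ | φ x ≠ 0} ∩ Metric.ball 0 1) :=
    ((inv_cont V x).isOpen_preimage _ isOpen_compl_singleton).inter Metric.isOpen_ball
  have hne : ({φ : V →L[ℂ] ℂ | φ x ≠ 0} ∩ Metric.ball 0 1).Nonempty := by
    obtain ⟨φ, hφ, hφx⟩ := exists_dual_vector ℂ x (norm_ne_zero_iff.mpr hx)
    refine ⟨(2 : ℂ)⁻¹ • φ, ?_, ?_⟩
    · show (2 : ℂ)⁻¹ • φ x ≠ 0
      rw [hφx]
      exact smul_ne_zero (by norm_num) (Complex.ofReal_ne_zero.mpr (norm_ne_zero_iff.mpr hx))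
    · rw [Metric.mem_ball, dist_zero_right, norm_smul, hφ]
      norm_num
  refine lt_of_lt_of_le (hopen.measure_pos (invMu V) hne) (measure_mono ?_)
  rintro φ ⟨h1, h2⟩
  refine ⟨?_, Metric.ball_subset_closedBall h2⟩
  rw [Function.mem_support]
  exact pow_ne_zero _ (norm_ne_zero_iff.mpr h1)

/-- the inner product core -/
@[reducible] noncomputable def invCore : InnerProductSpace.Core ℂ V where
  inner := invB V
  conj_inner_symm x y := by
    show (starRingEnd ℂ) (invB V y x) = invB V x y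
    unfold invB
    rw [← integral_conj]
    refine integral_congr_ae (Eventually.of_forall fun φ => ?_)
    show (starRingEnd ℂ) ((starRingEnd ℂ) (φ y) * φ x) = (starRingEnd ℂ) (φ x) * φ y
    rw [map_mul, Complex.conj_conj, mul_comm]
  re_inner_nonneg x := by
    show 0 ≤ (invB V x x).re
    rw [inv_self, Complex.ofReal_re]
    exact integral_nonneg fun φ => sq_nonneg _
  add_left x y z := by
    show invB V (x + y) z = invB V x z + invB V y z
    unfold invB
    rw [← integral_add (inv_integrable V x z) (inv_integrable V y z)]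
    refine integral_congr_ae (Eventually.of_forall fun φ => ?_)
    show (starRingEnd ℂ) (φ (x + y)) * φ z
      = (starRingEnd ℂ) (φ x) * φ z + (starRingEnd ℂ) (φ y) * φ z
    rw [map_add, map_add]
    ring
  smul_left x y r := by
    show invB V (r • x) y = (starRingEnd ℂ) r * invB V x y
    unfold invB
    rw [← integral_const_mul]
    refine integral_congr_ae (Eventually.of_forall fun φ => ?_)
    show (starRingEnd ℂ) (φ (r • x)) * φ y = (starRingEnd ℂ) r * ((starRingEnd ℂ) (φ x) * φ y)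
    rw [map_smul, smul_eq_mul, map_mul]
    ring
  definite x h := by
    by_contra hx
    have h1 : invB V x x = 0 := h
    rw [inv_self] at h1
    exact (inv_pos V x hx).ne' (by exact_mod_cast h1)

/-- composition with an isometry, on the dual -/
noncomputable def invIso (g : V ≃ₗᵢ[ℂ] V) : (V →L[ℂ] ℂ) ≃ᵢ (V →L[ℂ] ℂ) where
  toFun φ := φ.comp (g : V →L[ℂ] V)
  invFun φ := φ.comp (g.symm : V →L[ℂ] V)
  left_inv φ := by
    ext x
    show φ (g (g.symm x)) = φ x
    rw [g.apply_symm_apply]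
  right_inv φ := by
    ext x
    show φ (g.symm (g x)) = φ x
    rw [g.symm_apply_apply]
  isometry_toFun := by
    refine Isometry.of_dist_eq fun φ ψ => ?_
    rw [dist_eq_norm, dist_eq_norm]
    have h : φ.comp (g : V →L[ℂ] V) - ψ.comp (g : V →L[ℂ] V)
        = (φ - ψ).comp (g : V →L[ℂ] V) := by
      ext x
      rfl
    rw [h]
    exact ContinuousLinearMap.opNorm_comp_linearIsometryEquiv (φ - ψ) g

omit [FiniteDimensional ℂ V] in
theorem inv_invB (g : V ≃ₗᵢ[ℂ] V) (x y : V) : invB V (g x) (g y) = invB V x y := by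
  have hmp : MeasurePreserving (invIso V g) (invMu V) (invMu V) :=
    (invIso V g).measurePreserving_hausdorffMeasure _
  have hpre : (invIso V g) ⁻¹' (Metric.closedBall (0 : V →L[ℂ] ℂ) 1)
      = Metric.closedBall (0 : V →L[ℂ] ℂ) 1 := by
    ext φ
    rw [Set.mem_preimage, Metric.mem_closedBall, Metric.mem_closedBall, dist_zero_right,
      dist_zero_right]
    have : ‖(invIso V g) φ‖ = ‖φ‖ := ContinuousLinearMap.opNorm_comp_linearIsometryEquiv φ g
    rw [this]
  have h := hmp.setIntegral_preimage_emb (invIso V g).toHomeomorph.measurableEmbedding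
    (fun φ : V →L[ℂ] ℂ => (starRingEnd ℂ) (φ x) * φ y) (Metric.closedBall 0 1)
  rw [hpre] at h
  unfold invB
  rw [← h]
  rfl

theorem inv_normed : ∃ T : V ≃ₗ[ℂ] E (Module.finrank ℂ V), ∀ g : V →ₗ[ℂ] V,
    (∀ x, ‖g x‖ = ‖x‖) → ∀ x, ‖T (g x)‖ = ‖T x‖ := by
  obtain ⟨T, hT⟩ := inv_coords V (invCore V)
  refine ⟨T, fun g hg x => ?_⟩
  let gi : V →ₗᵢ[ℂ] V := ⟨g, hg⟩
  let ge : V ≃ₗᵢ[ℂ] V := gi.toLinearIsometryEquiv rfl
  have h1 : g x = ge x := rfl
  have h2 : ‖T (g x)‖ ^ 2 = ‖T x‖ ^ 2 := by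
    rw [hT, hT, h1]
    show (invB V (ge x) (ge x)).re = (invB V x x).re
    rw [inv_invB]
  exact (sq_eq_sq₀ (norm_nonneg _) (norm_nonneg _)).mp h2

end

theorem st_INV : ST_INV := by
  intro V _ _ _ N hN
  have h0 : N 0 = 0 := by
    have := hN.smul 0 0
    simpa using this
  let _ : Norm V := ⟨N⟩
  have core : NormedSpace.Core ℂ V :=
    { norm_nonneg := fun x => by
        by_cases hx : x = 0
        · rw [hx]
          exact h0.ge
        · exact (hN.pos x hx).le
      norm_smul := fun c x => hN.smul c x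
      norm_triangle := fun x y => hN.add x y
      norm_eq_zero_iff := fun x => by
        constructor
        · intro h
          by_contra hx
          exact (hN.pos x hx).ne' h
        · intro h
          rw [h]
          exact h0 }
  let _ : NormedAddCommGroup V := NormedAddCommGroup.ofCore core
  let _ : NormedSpace ℂ V := NormedSpace.ofCore core
  obtain ⟨T, hT⟩ := inv_normed V
  exact ⟨T, fun g hg x => hT g hg x⟩

end Pool.Agent.Helper83.CB
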